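import Pool.Agent.helper85.JacCover

/-!
# The Erdős-Rankin lower bound for the maximal gap `J k`
-/

namespace Pool.Agent.helper85.Jac

open Finset Filter

lemma log_le_half {x : ℝ} (hx : 0 < x) : Real.log x ≤ x / 2 := by
  have h := Real.log_le_sub_one_of_pos (x := x / 2) (by linarith)
  rw [Real.log_div hx.ne' (by norm_num)] at h
  have := Real.log_two_lt_d9
  linarith

lemma tendsto_logloglog : Tendsto (fun k : ℕ => Real.log (Real.log (Real.log (k : ℝ)))) atTop atTop :=
  Real.tendsto_log_atTop.comp (Real.tendsto_log_atTop.comp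
    (Real.tendsto_log_atTop.comp tendsto_natCast_atTop_atTop))

lemma tendsto_loglog : Tendsto (fun k : ℕ => Real.log (Real.log (k : ℝ))) atTop atTop :=
  Real.tendsto_log_atTop.comp (Real.tendsto_log_atTop.comp tendsto_natCast_atTop_atTop)

lemma tendsto_log : Tendsto (fun k : ℕ => Real.log (k : ℝ)) atTop atTop :=
  Real.tendsto_log_atTop.comp tendsto_natCast_atTop_atTop

/-- **Erdős-Rankin** for Jacobsthal's function at primorials. -/
theorem J_lower : ∀ᶠ k : ℕ in atTop,
    1 / 2000 * (k * Real.log k ^ 2 * Real.log (Real.log (Real.log k)) / Real.log (Real.log k) ^ 2)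
      ≤ (J k : ℝ) := by
  filter_upwards [tendsto_logloglog.eventually_ge_atTop 128, tendsto_loglog.eventually_ge_atTop 128,
    tendsto_log.eventually_ge_atTop 128, eventually_ge_atTop 100] with k hs ht hL hk
  set L := Real.log k with hLdef
  set t := Real.log L with htdef
  set s := Real.log t with hsdef
  have hk0 : (0 : ℝ) < k := by exact_mod_cast (by omega : 0 < k)
  have hL0 : 0 < L := by linarith
  have ht0 : 0 < t := by linarith
  have hs0 : 0 < s := by linarith
  have hst : s ≤ t / 2 := log_le_half ht0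
  have hlogs : Real.log s ≤ s / 2 := log_le_half hs0
  have hLexp : L = Real.exp t := (Real.exp_log hL0).symm
  have hkexp : (k : ℝ) = Real.exp L := (Real.exp_log hk0).symm
  have hL4 : t ^ 4 / 24 ≤ L := by
    rw [hLexp]
    have := Real.pow_div_factorial_le_exp t ht0.le 4
    norm_num [Nat.factorial] at this
    exact this
  have ht2 : (16384 : ℝ) ≤ t ^ 2 := by
    have := mul_le_mul ht ht (by norm_num) ht0.le
    rw [sq]; linarith
  have hL2 : 682 * t ^ 2 ≤ L := by
    have h2 := mul_le_mul_of_nonneg_right ht2 (sq_nonneg t)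
    have h3 : t ^ 2 * t ^ 2 = t ^ 4 := by ring
    rw [h3] at h2
    linarith
  set u := 16 * t / s with hu
  have hu0 : 0 < u := by positivity
  have hu_le : u ≤ t / 8 := by
    rw [hu, div_le_div_iff₀ hs0 (by norm_num)]
    have := mul_le_mul_of_nonneg_left hs ht0.le
    linarith
  have hu_ge : 32 ≤ u := by
    rw [hu, le_div_iff₀ hs0]
    linarith
  have hus : u * s = 16 * t := by rw [hu]; field_simp
  -- z
  set z := ⌊Real.exp (L / u)⌋₊ with hz
  have hz_le : (z : ℝ) ≤ Real.exp (L / u) := Nat.floor_le (Real.exp_pos _).le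
  have hz_gt : Real.exp (L / u) < z + 1 := Nat.lt_floor_add_one _
  have hLu : 5456 * t ≤ L / u := by
    rw [le_div_iff₀ hu0]
    calc 5456 * t * u ≤ 5456 * t * (t / 8) := by gcongr
      _ = 682 * t ^ 2 := by ring
      _ ≤ L := hL2
  have hexp_big : 1 + 682 * t ^ 2 ≤ Real.exp (L / u) := by
    have h1 : Real.exp t ≤ Real.exp (L / u) := Real.exp_le_exp.mpr (by linarith)
    have h2 : Real.exp t + 1 ≤ Real.exp (5456 * t) := by
      have h3 : Real.exp (5456 * t) = Real.exp (5455 * t) * Real.exp t := by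
        rw [← Real.exp_add]; ring_nf
      have h4 : (2 : ℝ) ≤ Real.exp (5455 * t) := by
        have := Real.add_one_le_exp (5455 * t)
        linarith
      have h5 : (1 : ℝ) ≤ Real.exp t := Real.one_le_exp ht0.le
      have h6 := mul_le_mul_of_nonneg_right h4 (Real.exp_pos t).le
      rw [h3]; linarith
    have h6 := Real.exp_le_exp.mpr hLu
    rw [← hLexp] at h2
    linarith
  have hz2 : 682 * t ^ 2 ≤ z := by linarith
  have hz2' : 2 ≤ z := by
    have : (2 : ℝ) ≤ z := by linarith
    exact_mod_cast this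
  have hz0 : (0 : ℝ) < z := by exact_mod_cast (by omega : 0 < z)
  have hlz_le : Real.log z ≤ L / u := by
    have := Real.log_le_log hz0 hz_le
    rwa [Real.log_exp] at this
  have hlz_ge : L / u ≤ Real.log (z + 1) := by
    have := Real.log_le_log (Real.exp_pos _) hz_gt.le
    rwa [Real.log_exp] at this
  have hlz4 : Real.log 4 ≤ Real.log z := by
    refine Real.log_le_log (by norm_num) ?_
    linarith
  have hlzpos : 0 < Real.log z := lt_of_lt_of_le (Real.log_pos (by norm_num)) hlz4
  have huz : u ^ 2 ≤ z := by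
    refine le_trans ?_ hz2
    have : u ^ 2 ≤ (t / 8) ^ 2 := by gcongr
    have h2 : (t / 8) ^ 2 = t ^ 2 / 64 := by ring
    linarith
  -- w
  set w := ⌊(k : ℝ) * L / 16⌋₊ with hw
  have hw_le : (w : ℝ) ≤ k * L / 16 := Nat.floor_le (by positivity)
  have hw_gt : (k : ℝ) * L / 16 < w + 1 := Nat.lt_floor_add_one _
  have hk100 : (100 : ℝ) ≤ k := by exact_mod_cast hk
  have hkL : (k : ℝ) * 128 ≤ k * L := mul_le_mul_of_nonneg_left hL hk0.le
  have hw_ge : (k : ℝ) * L / 32 ≤ w := by linarith
  have hwk : (k : ℝ) ≤ w := by linarith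
  have hwk' : k ≤ w := by exact_mod_cast hwk
  have hlogw : L ≤ Real.log w := Real.log_le_log hk0 hwk
  have hzw : z ≤ w := by
    have h1 : (z : ℝ) ≤ k := by
      refine hz_le.trans ?_
      rw [hkexp]
      refine Real.exp_le_exp.mpr (div_le_self hL0.le (by linarith))
    exact_mod_cast h1.trans hwk
  have hpiw : (Nat.primeCounting w : ℝ) ≤ k / 4 := by
    have h1 := primeCounting_le w (by omega)
    refine h1.trans ?_
    rw [div_le_iff₀ (by linarith)]
    calc 4 * (w : ℝ) ≤ 4 * (k * L / 16) := by gcongr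
      _ = k / 4 * L := by ring
      _ ≤ k / 4 * Real.log w := by gcongr
  have hsub : Nat.primesLE w ⊆ PS k := by
    refine primesLE_subset_PS ?_
    have : (Nat.primeCounting w : ℝ) ≤ k := by linarith
    exact_mod_cast this
  -- N
  set G := (k : ℝ) * L ^ 2 * s / t ^ 2 with hG
  have hG_ge : 87000 * k ≤ G := by
    rw [hG, le_div_iff₀ (by positivity)]
    have h1 : 682 * t ^ 2 * 128 ≤ L * s := by
      have := mul_le_mul hL2 hs (by norm_num) hL0.le
      linarith
    have h2 : L * s ≤ L ^ 2 * s := by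
      have h3 : L * 1 ≤ L * L := mul_le_mul_of_nonneg_left (by linarith) hL0.le
      have h4 : L ^ 2 = L * L := sq L
      rw [h4]
      exact mul_le_mul_of_nonneg_right (by linarith) hs0.le
    have h5 : 87000 * t ^ 2 ≤ L ^ 2 * s := by linarith
    calc 87000 * (k : ℝ) * t ^ 2 = k * (87000 * t ^ 2) := by ring
      _ ≤ k * (L ^ 2 * s) := mul_le_mul_of_nonneg_left h5 hk0.le
      _ = _ := by ring
  set N := ⌊G / 1000⌋₊ with hN
  have hN_le : (N : ℝ) ≤ G / 1000 := Nat.floor_le (by positivity)
  have hN_gt : G / 1000 < N + 1 := Nat.lt_floor_add_one _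
  have hNk : (k : ℝ) ≤ N := by linarith
  have hNk' : k ≤ N := by exact_mod_cast hNk
  have hN2 : G / 2000 ≤ N := by linarith
  have hN0 : (0 : ℝ) < N := by linarith
  have hlogN : L ≤ Real.log N := Real.log_le_log hk0 hNk
  -- smooth numbers
  have hPsi := Pool.Agent.Lib.PrimeSums.smooth_bound N z u (by omega) hz2' (by linarith) huz
  have hS := Pool.Agent.Lib.PrimeSums.sum_inv_le z hz2'
  have hexp : -(Real.log N / Real.log z * Real.log u)
        + 4 * (∑ p ∈ Nat.primesLE z, 1 / (p : ℝ)
          + (u - 1) * ((Real.log z + Real.log 4) / Real.log z)) ≤ -(2 * t) := by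
    have e1 : u ≤ Real.log N / Real.log z := by
      rw [le_div_iff₀ hlzpos]
      calc u * Real.log z ≤ u * (L / u) := by gcongr
        _ = L := by field_simp
        _ ≤ Real.log N := hlogN
    have e2 : s / 2 ≤ Real.log u := by
      rw [hu, Real.log_div (by positivity) hs0.ne', Real.log_mul (by norm_num) ht0.ne']
      have : 0 ≤ Real.log 16 := Real.log_nonneg (by norm_num)
      linarith
    have e3 : u * (s / 2) ≤ Real.log N / Real.log z * Real.log u :=
      mul_le_mul e1 e2 (by positivity) (by positivity)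
    have e4 : Real.log (Real.log z) ≤ t := by
      refine Real.log_le_log hlzpos (hlz_le.trans (div_le_self hL0.le (by linarith)))
    have e5 : (u - 1) * ((Real.log z + Real.log 4) / Real.log z) ≤ 2 * u := by
      have : (Real.log z + Real.log 4) / Real.log z ≤ 2 := by
        rw [div_le_iff₀ hlzpos]; linarith
      have h0 : 0 ≤ (Real.log z + Real.log 4) / Real.log z := by
        have : 0 ≤ Real.log 4 := Real.log_nonneg (by norm_num)
        positivity
      calc (u - 1) * ((Real.log z + Real.log 4) / Real.log z)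
          ≤ u * ((Real.log z + Real.log 4) / Real.log z) :=
            mul_le_mul_of_nonneg_right (by linarith) h0
        _ ≤ u * 2 := mul_le_mul_of_nonneg_left this hu0.le
        _ = 2 * u := by ring
    have e6 : u * (s / 2) = 8 * t := by linarith
    linarith
  have hPsi2 : (#{n ∈ Icc 1 N | n ∈ (z + 1).smoothNumbers} : ℝ) ≤ N * t / L := by
    refine hPsi.trans ?_
    rw [mul_div_assoc]
    refine mul_le_mul_of_nonneg_left ?_ hN0.le
    calc _ ≤ Real.exp (-(2 * t)) := Real.exp_le_exp.mpr hexp
      _ ≤ Real.exp (-t) := Real.exp_le_exp.mpr (by linarith)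
      _ = 1 / L := by rw [Real.exp_neg, ← hLexp, one_div]
      _ ≤ t / L := by gcongr; linarith
  have hNw : Real.log (N / w : ℕ) ≤ t := by
    rcases Nat.eq_zero_or_pos (N / w) with h | h
    · rw [h]; simp; linarith
    · refine Real.log_le_log (by exact_mod_cast h) ?_
      have hw0 : (0 : ℝ) < w := by linarith
      calc ((N / w : ℕ) : ℝ) ≤ N / w := Nat.cast_div_le
        _ ≤ (G / 1000) / (k * L / 32) := by gcongr
        _ = 32 / 1000 * (L * (s / t ^ 2)) := by rw [hG]; field_simp
        _ ≤ 32 / 1000 * (L * 1) := by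
            gcongr
            rw [div_le_one (by positivity)]
            have : t * 1 ≤ t * t := mul_le_mul_of_nonneg_left (by linarith) ht0.le
            rw [sq]
            linarith
        _ ≤ L := by linarith
  have hS0 := card_survivors N z w (by omega)
  have hS0' : (#{n ∈ Icc 1 N | ∀ p ∈ Nat.primesLE w, z < p → ¬ p ∣ n} : ℝ) ≤ 9 * (N * t / L) := by
    refine hS0.trans ?_
    have e1 : 4 * N / Real.log w * (1 + Real.log (N / w : ℕ)) ≤ 4 * N / L * (1 + t) := by
      have : 0 ≤ 1 + Real.log (N / w : ℕ) := by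
        have : 0 ≤ Real.log (N / w : ℕ) := Real.log_natCast_nonneg _
        linarith
      gcongr
    have e2 : 4 * N / L * (1 + t) ≤ 8 * (N * t / L) := by
      have : 4 * N / L * (1 + t) = (4 * N / L) + 4 * (N * t / L) := by ring
      rw [this]
      have : 4 * N / L ≤ 4 * (N * t / L) := by
        have h5 : N * 1 ≤ N * t := mul_le_mul_of_nonneg_left (by linarith) hN0.le
        have h6 : 4 * (N : ℝ) / L = 4 * (N * 1 / L) := by ring
        rw [h6]
        gcongr
      linarith
    linarith
  have hprod := Pool.Agent.Lib.PrimeSums.prod_one_sub_le z (by omega)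
  have hprod' : ∏ p ∈ Nat.primesLE z, (1 - 1 / (p : ℝ)) ≤ u / L := by
    refine hprod.trans ?_
    rw [div_le_div_iff₀ (by linarith) hL0, one_mul]
    have := hlz_ge
    rw [div_le_iff₀ hu0] at this
    linarith
  have hprod0 : 0 ≤ ∏ p ∈ Nat.primesLE z, (1 - 1 / (p : ℝ)) := by
    refine prod_nonneg fun p hp => ?_
    have : (1 : ℝ) ≤ p := by exact_mod_cast (Nat.mem_primesLE.mp hp).2.one_le
    rw [sub_nonneg, div_le_one (by linarith)]; exact this
  have hT : (#{n ∈ Icc 1 N | ∀ p ∈ Nat.primesLE w, z < p → ¬ p ∣ n} : ℝ)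
      * ∏ p ∈ Nat.primesLE z, (1 - 1 / (p : ℝ)) + 2 ≤ #(PS k \ Nat.primesLE w) := by
    have e1 : (#{n ∈ Icc 1 N | ∀ p ∈ Nat.primesLE w, z < p → ¬ p ∣ n} : ℝ)
        * ∏ p ∈ Nat.primesLE z, (1 - 1 / (p : ℝ)) ≤ 9 * (N * t / L) * (u / L) :=
      mul_le_mul hS0' hprod' hprod0 (by positivity)
    have e2 : 9 * (N * t / L) * (u / L) ≤ 144 / 1000 * k := by
      calc 9 * (N * t / L) * (u / L) ≤ 9 * ((G / 1000) * t / L) * (u / L) := by gcongr
        _ = 144 / 1000 * k := by
            rw [hG, hu]; field_simp; norm_num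
    have e3 : (3 / 4 : ℝ) * k ≤ #(PS k \ Nat.primesLE w) := by
      rw [card_sdiff_of_subset hsub, card_PS, primesLE_card, Nat.cast_sub]
      · linarith
      · have : (Nat.primeCounting w : ℝ) ≤ k := by linarith
        exact_mod_cast this
    linarith
  have hfin := J_gt_of_counts (by omega : 1 ≤ k) (by omega : 2 ≤ N) hzw hsub hT
  have hfin' : (N : ℝ) ≤ J k := by exact_mod_cast hfin.le
  have e : 1 / 2000 * ((k : ℝ) * L ^ 2 * s / t ^ 2) = G / 2000 := by rw [hG]; ring
  rw [e]
  linarith

end Pool.Agent.helper85.Jac
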