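import Pool.Agent.helper85.JacTransfer
import Pool.Agent.Lib.SieveInterval

/-!
# Averaging: a shift whose end points are unhit by small primes and cheap for large ones
-/

namespace Pool.Agent.helper85.Jac

open Finset Pool.Agent.Lib.BrunHooley

/-- `2` is a gap for every `k ≥ 3`. -/
lemma isGap_two {k : ℕ} (hk : 3 ≤ k) : IsGap k 2 := by
  have h5 : 5 ∈ PS k := mem_PS.mpr ⟨2, by omega, Nat.nth_prime_two_eq_five⟩
  refine isGap_of_residues (by omega) (fun p => if p = 3 then 2 else 1) (by norm_num) ?_ ?_ ?_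
    (Or.inr ⟨5, h5, by norm_num⟩)
  · intro p hp
    have hpp := prime_of_mem hp
    split_ifs with h
    · subst h; norm_num
    · intro h'; exact hpp.one_lt.ne' (Nat.dvd_one.mp h')
  · intro p hp
    have hpp := prime_of_mem hp
    split_ifs with h
    · subst h; norm_num
    · intro h'
      exact h ((Nat.prime_dvd_prime_iff_eq hpp Nat.prime_three).mp h')
  · intro i hi hi2
    exact ⟨2, two_mem (by omega), by
      have : i = 1 := by omega
      subst this; norm_num⟩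

lemma sum_inv_PS (k : ℕ) : ∑ p ∈ PS k, (1 : ℝ) / p ≤ 1 + Real.log k := by
  rw [PS, sum_image (fun i _ j _ h => nth_inj h)]
  have h1 : ∑ i ∈ range k, (1 : ℝ) / (Nat.nth Nat.Prime i : ℕ) ≤ ∑ i ∈ range k, ((i : ℝ) + 1)⁻¹ := by
    refine sum_le_sum fun i _ => ?_
    rw [one_div]
    have := Nat.add_two_le_nth_prime i
    have h2 : ((i : ℝ) + 1) ≤ (Nat.nth Nat.Prime i : ℕ) := by
      exact_mod_cast (by omega : i + 1 ≤ Nat.nth Nat.Prime i)
    exact inv_anti₀ (by positivity) h2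
  refine h1.trans ?_
  have h2 := harmonic_le_one_add_log k
  rw [harmonic] at h2
  push_cast at h2
  exact h2

lemma card_dvd_Ioc (p b H : ℕ) (hp : 0 < p) : (#{s ∈ Ioc 0 H | p ∣ b + s} : ℝ) ≤ H / p + 1 := by
  have h1 : #{s ∈ Ioc 0 H | p ∣ b + s} ≤ #(Ioc (b / p) ((b + H) / p)) := by
    refine card_le_card_of_injOn (fun i => (b + i) / p) ?_ ?_
    · intro i hi
      rw [mem_coe, mem_filter, mem_Ioc] at hi
      rw [mem_coe, mem_Ioc]
      constructor
      · rw [Nat.div_lt_iff_lt_mul hp, Nat.div_mul_cancel hi.2]; omega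
      · exact Nat.div_le_div_right (by omega)
    · intro i hi j hj hij
      rw [mem_coe, mem_filter, mem_Ioc] at hi hj
      have e1 := Nat.div_mul_cancel hi.2
      have e2 := Nat.div_mul_cancel hj.2
      simp only at hij
      rw [hij] at e1
      omega
  have h2 : (b + H) / p ≤ b / p + H / p + 1 := by
    rw [Nat.add_div hp]
    split_ifs <;> omega
  rw [Nat.card_Ioc] at h1
  have h3 : #{s ∈ Ioc 0 H | p ∣ b + s} ≤ H / p + 1 :=
    h1.trans (Nat.sub_le_iff_le_add.mpr (by linarith))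
  calc (#{s ∈ Ioc 0 H | p ∣ b + s} : ℝ) ≤ ((H / p + 1 : ℕ) : ℝ) := by exact_mod_cast h3
    _ ≤ H / p + 1 := by
        push_cast
        gcongr
        exact Nat.cast_div_le

theorem exists_shift : ∃ B r₀ : ℕ, ∀ (r k' a t H : ℕ), r₀ ≤ r → 1 ≤ k' → Even t → (Z r) ^ B ≤ H →
    0 < H → ∃ s, 0 < s ∧ s ≤ H ∧ (∀ p, p.Prime → p ≤ Z r → ¬ p ∣ a + s ∧ ¬ p ∣ a + s + t) ∧
      (∑ p ∈ hitSet k' a s t, ((t / p + 1 : ℕ) : ℝ)) * H ≤ Z (r - 1) *
        (2 * (t * H * (1 + Real.log k') / Z r + (t + H) * (1 + Real.log k') + k')) := by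
  obtain ⟨B, r₀, hB⟩ := interval_lower 2
  refine ⟨B, r₀, ?_⟩
  intro r k' a t H hr hk' ht hZH hH
  let C : ℕ → Finset ℕ := fun p => {c ∈ range p | p.Prime ∧ (p ∣ a + c ∨ p ∣ a + c + t)}
  have huniq : ∀ p, p.Prime → ∀ b, #{c ∈ range p | p ∣ b + c} ≤ 1 := by
    intro p hp b
    rw [card_le_one]
    intro c hc d hd
    rw [mem_filter, mem_range] at hc hd
    have h1 := (Nat.modEq_zero_iff_dvd.mpr hc.2).trans (Nat.modEq_zero_iff_dvd.mpr hd.2).symm
    have h2 := Nat.ModEq.add_left_cancel' b h1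
    unfold Nat.ModEq at h2
    rwa [Nat.mod_eq_of_lt hc.1, Nat.mod_eq_of_lt hd.1] at h2
  have hC0 : ∀ p, p.Prime → ∀ c ∈ C p, c < p := fun p _ c hc => mem_range.mp (mem_filter.mp hc).1
  have hC2 : ∀ p, #(C p) ≤ 2 := by
    intro p
    by_cases hp : p.Prime
    · have : C p ⊆ {c ∈ range p | p ∣ a + c} ∪ {c ∈ range p | p ∣ (a + t) + c} := by
        intro c hc
        simp only [C, mem_filter, mem_union] at hc ⊢
        rcases hc with ⟨h1, _, h2 | h2⟩
        · exact Or.inl ⟨h1, h2⟩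
        · exact Or.inr ⟨h1, by rwa [show a + t + c = a + c + t by ring]⟩
      refine (card_le_card this).trans ((card_union_le _ _).trans ?_)
      have e1 := huniq p hp a
      have e2 := huniq p hp (a + t)
      omega
    · have : C p = ∅ := by
        simp only [C]
        rw [filter_eq_empty_iff]
        intro c _ h
        exact hp h.1
      rw [this]; simp
  have hClt : ∀ p, p.Prime → #(C p) < p := by
    intro p hp
    by_cases h2 : p = 2
    · subst h2
      have : C 2 ⊆ {c ∈ range 2 | 2 ∣ a + c} := by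
        intro c hc
        simp only [C, mem_filter] at hc ⊢
        refine ⟨hc.1, ?_⟩
        rcases hc.2.2 with h | h
        · exact h
        · exact (Nat.dvd_add_left (even_iff_two_dvd.mp ht)).mp h
      have e1 := huniq 2 hp a
      have e2 := card_le_card this
      omega
    · have := hp.two_le
      have := hC2 p
      omega
  have hmain := hB r 0 H C hr hC0 hC2 hClt hZH
  set S := sifted 0 H (Z r) C with hS
  have hSmem : ∀ s ∈ S, (0 < s ∧ s ≤ H) ∧ ∀ p, p.Prime → p ≤ Z r → ¬ p ∣ a + s ∧ ¬ p ∣ a + s + t := by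
    intro s hs
    rw [hS, sifted, mem_filter, mem_Ioc] at hs
    refine ⟨by omega, ?_⟩
    intro p hp hpz
    have h1 := hs.2 p (Nat.mem_primesLE.mpr ⟨hpz, hp⟩)
    simp only [C, mem_filter, mem_range, not_and, not_or] at h1
    have h2 := h1 (Nat.mod_lt _ hp.pos) hp
    have hm : a + s % p ≡ a + s [MOD p] := (Nat.mod_modEq s p).add_left a
    constructor
    · intro h; exact h2.1 ((hm.dvd_iff (dvd_refl p)).mpr h)
    · intro h; exact h2.2 (((hm.add_right t).dvd_iff (dvd_refl p)).mpr h)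
  have hHpos : (0 : ℝ) < H := by exact_mod_cast hH
  have hSpos : 0 < #S := by
    rcases Nat.eq_zero_or_pos #S with h | h
    · rw [h] at hmain; simp at hmain; linarith
    · exact h
  have hSpos' : (0 : ℝ) < #S := by exact_mod_cast hSpos
  -- total cost
  set P1 := {p ∈ PS k' | Z r < p} with hP1
  have hzpos : (0 : ℝ) < Z r := by exact_mod_cast Z_pos r
  have hcost : ∀ s ∈ S, ∑ p ∈ hitSet k' a s t, ((t / p + 1 : ℕ) : ℝ)
      ≤ ∑ p ∈ P1, if p ∣ a + s ∨ p ∣ a + s + t then ((t / p + 1 : ℕ) : ℝ) else 0 := by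
    intro s hs
    rw [← sum_filter]
    refine sum_le_sum_of_subset_of_nonneg ?_ (fun _ _ _ => Nat.cast_nonneg _)
    intro p hp
    rw [hitSet, mem_filter] at hp
    rw [mem_filter, hP1, mem_filter]
    refine ⟨⟨hp.1, ?_⟩, hp.2⟩
    by_contra hle
    push Not at hle
    have := (hSmem s hs).2 p (prime_of_mem hp.1) hle
    rcases hp.2 with h | h
    · exact this.1 h
    · exact this.2 h
  have htotal : ∑ s ∈ S, ∑ p ∈ hitSet k' a s t, ((t / p + 1 : ℕ) : ℝ)
      ≤ 2 * (t * H * (1 + Real.log k') / Z r + (t + H) * (1 + Real.log k') + k') := by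
    refine (sum_le_sum hcost).trans ?_
    rw [sum_comm]
    have h1 : ∀ p ∈ P1, ∑ s ∈ S, (if p ∣ a + s ∨ p ∣ a + s + t then ((t / p + 1 : ℕ) : ℝ) else 0)
        ≤ 2 * (t * H / Z r + (t + H)) * (1 / p) + 2 := by
      intro p hp
      rw [hP1, mem_filter] at hp
      have hpp := prime_of_mem hp.1
      have hp0 : (0 : ℝ) < p := by exact_mod_cast hpp.pos
      rw [← sum_filter, sum_const, nsmul_eq_mul]
      have hsub : {s ∈ S | p ∣ a + s ∨ p ∣ a + s + t}
          ⊆ {s ∈ Ioc 0 H | p ∣ a + s} ∪ {s ∈ Ioc 0 H | p ∣ (a + t) + s} := by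
        intro s hs
        rw [mem_filter] at hs
        have hs1 := (hSmem s hs.1).1
        rw [mem_union, mem_filter, mem_filter, mem_Ioc]
        rcases hs.2 with h | h
        · exact Or.inl ⟨hs1, h⟩
        · exact Or.inr ⟨hs1, by rwa [show a + t + s = a + s + t by ring]⟩
      have hc : (#{s ∈ S | p ∣ a + s ∨ p ∣ a + s + t} : ℝ) ≤ 2 * (H / p + 1) := by
        have e1 := card_dvd_Ioc p a H hpp.pos
        have e2 := card_dvd_Ioc p (a + t) H hpp.pos
        have e3 : (#{s ∈ S | p ∣ a + s ∨ p ∣ a + s + t} : ℝ)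
            ≤ #{s ∈ Ioc 0 H | p ∣ a + s} + #{s ∈ Ioc 0 H | p ∣ (a + t) + s} := by
          exact_mod_cast (card_le_card hsub).trans (card_union_le _ _)
        linarith
      have hw : ((t / p + 1 : ℕ) : ℝ) ≤ t / p + 1 := by
        push_cast
        gcongr
        exact Nat.cast_div_le
      have hzp : (1 : ℝ) / p ≤ 1 / Z r := by
        apply one_div_le_one_div_of_le hzpos
        exact_mod_cast hp.2.le
      calc (#{s ∈ S | p ∣ a + s ∨ p ∣ a + s + t} : ℝ) * ((t / p + 1 : ℕ) : ℝ)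
          ≤ (2 * (H / p + 1)) * (t / p + 1) := by gcongr
        _ = 2 * (t * H * (1 / p)) * (1 / p) + 2 * (t + H) * (1 / p) + 2 := by ring
        _ ≤ 2 * (t * H * (1 / Z r)) * (1 / p) + 2 * (t + H) * (1 / p) + 2 := by gcongr
        _ = _ := by ring
    refine (sum_le_sum h1).trans ?_
    rw [sum_add_distrib, ← mul_sum, sum_const, nsmul_eq_mul]
    have h2 : ∑ p ∈ P1, (1 : ℝ) / p ≤ 1 + Real.log k' :=
      (sum_le_sum_of_subset_of_nonneg (filter_subset _ _) (fun _ _ _ => by positivity)).trans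
        (sum_inv_PS k')
    have h3 : (#P1 : ℝ) ≤ k' := by
      have : #P1 ≤ k' := (card_filter_le _ _).trans (card_PS k').le
      exact_mod_cast this
    have h4 : 2 * ((t : ℝ) * H / Z r + (t + H)) * ∑ p ∈ P1, (1 : ℝ) / p
        ≤ 2 * ((t : ℝ) * H / Z r + (t + H)) * (1 + Real.log k') := by gcongr
    calc _ ≤ 2 * ((t : ℝ) * H / Z r + (t + H)) * (1 + Real.log k') + k' * 2 := by linarith
      _ = _ := by ring
  set T := 2 * (t * H * (1 + Real.log k') / Z r + (t + H) * (1 + Real.log k') + (k' : ℝ)) with hT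
  obtain ⟨s, hs, hsT⟩ := exists_le_of_sum_le (s := S) (card_pos.mp hSpos)
    (f := fun s => ∑ p ∈ hitSet k' a s t, ((t / p + 1 : ℕ) : ℝ)) (g := fun _ => T / #S)
    (by rw [sum_const, nsmul_eq_mul, mul_div_cancel₀ _ hSpos'.ne']; exact htotal)
  have hs' := hSmem s hs
  refine ⟨s, hs'.1.1, hs'.1.2, hs'.2, ?_⟩
  rw [le_div_iff₀ hSpos'] at hsT
  have hnn : 0 ≤ ∑ p ∈ hitSet k' a s t, ((t / p + 1 : ℕ) : ℝ) := sum_nonneg fun _ _ => Nat.cast_nonneg _
  calc (∑ p ∈ hitSet k' a s t, ((t / p + 1 : ℕ) : ℝ)) * H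
      ≤ (∑ p ∈ hitSet k' a s t, ((t / p + 1 : ℕ) : ℝ)) * (Z (r - 1) * #S) := by gcongr
    _ = Z (r - 1) * ((∑ p ∈ hitSet k' a s t, ((t / p + 1 : ℕ) : ℝ)) * #S) := by ring
    _ ≤ _ := by gcongr

end Pool.Agent.helper85.Jac
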