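import Pool.Agent.helper85.JacDefs

/-!
# Basic facts on gaps of reduced residues modulo primorials
-/

namespace Pool.Agent.helper85.Jac

open Finset

/-- the set of the first `k` primes. -/
noncomputable def PS (k : ℕ) : Finset ℕ := (range k).image (Nat.nth Nat.Prime)

lemma nth_prime (i : ℕ) : (Nat.nth Nat.Prime i).Prime := Nat.prime_nth_prime i

lemma nth_inj : Function.Injective (Nat.nth Nat.Prime) :=
  Nat.nth_injective Nat.infinite_setOfPred_prime

lemma mem_PS {k p : ℕ} : p ∈ PS k ↔ ∃ i < k, Nat.nth Nat.Prime i = p := by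
  simp [PS]

lemma prime_of_mem {k p : ℕ} (h : p ∈ PS k) : p.Prime := by
  obtain ⟨i, _, rfl⟩ := mem_PS.mp h
  exact nth_prime i

lemma card_PS (k : ℕ) : #(PS k) = k := by
  rw [PS, card_image_of_injective _ nth_inj, card_range]

lemma PS_mono {k l : ℕ} (h : k ≤ l) : PS k ⊆ PS l := by
  intro p hp
  obtain ⟨i, hi, rfl⟩ := mem_PS.mp hp
  exact mem_PS.mpr ⟨i, lt_of_lt_of_le hi h, rfl⟩

lemma primo_eq (k : ℕ) : primo k = ∏ p ∈ PS k, p := by
  rw [primo, PS, prod_image (fun i _ j _ h => nth_inj h)]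

lemma primo_pos (k : ℕ) : 0 < primo k := by
  rw [primo_eq]; exact prod_pos fun p hp => (prime_of_mem hp).pos

lemma two_mem {k : ℕ} (hk : 1 ≤ k) : 2 ∈ PS k := mem_PS.mpr ⟨0, by omega, Nat.nth_prime_zero_eq_two⟩

lemma three_mem {k : ℕ} (hk : 2 ≤ k) : 3 ∈ PS k := mem_PS.mpr ⟨1, by omega, Nat.nth_prime_one_eq_three⟩

lemma coprime_iff (k a : ℕ) : Nat.Coprime a (primo k) ↔ ∀ p ∈ PS k, ¬ p ∣ a := by
  rw [primo_eq, Nat.coprime_prod_right_iff]
  refine forall₂_congr fun p hp => ?_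
  rw [Nat.coprime_comm, (prime_of_mem hp).coprime_iff_not_dvd]

lemma dvd_primo {k p : ℕ} (hp : p ∈ PS k) : p ∣ primo k := by
  rw [primo_eq]; exact dvd_prod_of_mem _ hp

lemma PS_pairwise (k : ℕ) : (↑(PS k) : Set ℕ).Pairwise (Function.onFun Nat.Coprime (fun p : ℕ => p)) := by
  intro p hp q hq hne
  exact (Nat.coprime_primes (prime_of_mem hp) (prime_of_mem hq)).mpr hne

/-- Chinese remainder for the first `k` primes, normalised to be below `n_k`. -/
lemma crt (k : ℕ) (ρ : ℕ → ℕ) : ∃ y < primo k, ∀ p ∈ PS k, y ≡ ρ p [MOD p] := by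
  obtain ⟨y, hy⟩ := Nat.chineseRemainderOfFinset ρ (fun p => p) (PS k)
    (fun p hp => (prime_of_mem hp).ne_zero) (PS_pairwise k)
  refine ⟨y % primo k, Nat.mod_lt _ (primo_pos k), fun p hp => ?_⟩
  refine Nat.ModEq.trans ?_ (hy p hp)
  exact (Nat.mod_modEq y (primo k)).of_dvd (dvd_primo hp)

lemma dvd_add_iff_of_modEq {p y r i : ℕ} (h : y ≡ r [MOD p]) : p ∣ y + i ↔ p ∣ r + i := by
  have h' := h.add_right i
  exact h'.dvd_iff (dvd_refl p)

/-- If the residues `ρ p` describe a covering pattern, then `t` is a gap. -/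
lemma isGap_of_residues {k t : ℕ} (hk : 1 ≤ k) (ρ : ℕ → ℕ) (ht : 0 < t)
    (h0 : ∀ p ∈ PS k, ¬ p ∣ ρ p) (h1 : ∀ p ∈ PS k, ¬ p ∣ ρ p + t)
    (h2 : ∀ i, 0 < i → i < t → ∃ p ∈ PS k, p ∣ ρ p + i)
    (h3 : 2 < t ∨ ∃ p ∈ PS k, ¬ p ∣ ρ p + 1) : IsGap k t := by
  obtain ⟨a, ha, hmod⟩ := crt k ρ
  set N := primo k with hN
  have hdiv : ∀ p ∈ PS k, ∀ i, p ∣ a + i ↔ p ∣ ρ p + i := fun p hp i =>
    dvd_add_iff_of_modEq (hmod p hp)
  have hca : ∀ p ∈ PS k, ¬ p ∣ a := by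
    intro p hp h
    exact h0 p hp (by simpa using (hdiv p hp 0).mp (by simpa using h))
  have hcat : ∀ p ∈ PS k, ¬ p ∣ a + t := fun p hp h => h1 p hp ((hdiv p hp t).mp h)
  have hbad : ∀ i, 0 < i → i < t → ∃ p ∈ PS k, p ∣ a + i := by
    intro i hi hit
    obtain ⟨p, hp, hpi⟩ := h2 i hi hit
    exact ⟨p, hp, (hdiv p hp i).mpr hpi⟩
  have h2k := two_mem hk
  have ha1 : 1 ≤ a := by
    rcases Nat.eq_zero_or_pos a with h | h
    · exact absurd (by rw [h]; exact dvd_zero 2) (hca 2 h2k)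
    · exact h
  have h2N : 2 ∣ N := dvd_primo h2k
  have hN2 : 2 ≤ N := Nat.le_of_dvd (primo_pos k) h2N
  refine ⟨a, ha1, ht, ?_, (coprime_iff k a).mpr hca, (coprime_iff k _).mpr hcat, ?_⟩
  · by_contra hge
    push Not at hge
    have hne : a + t ≠ N := by
      intro h
      exact hcat 2 h2k (by rw [h]; exact h2N)
    have hgt : N < a + t := lt_of_le_of_ne hge (Ne.symm hne)
    have haN : a = N - 1 := by
      by_contra hne'
      have hlt : a < N - 1 := by omega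
      obtain ⟨p, hp, hpi⟩ := hbad (N - 1 - a) (by omega) (by omega)
      rw [show a + (N - 1 - a) = N - 1 by omega] at hpi
      have hpN : p ∣ N := dvd_primo hp
      have : p ∣ 1 := by
        have := Nat.dvd_sub hpN hpi
        rwa [show N - (N - 1) = 1 by omega] at this
      exact (prime_of_mem hp).one_lt.ne' (Nat.dvd_one.mp this)
    rcases h3 with h3 | ⟨p, hp, hp1⟩
    · obtain ⟨p, hp, hpi⟩ := hbad 2 (by omega) (by omega)
      rw [haN, show N - 1 + 2 = N + 1 by omega] at hpi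
      have hpN : p ∣ N := dvd_primo hp
      have : p ∣ 1 := (Nat.dvd_add_right hpN).mp hpi
      exact (prime_of_mem hp).one_lt.ne' (Nat.dvd_one.mp this)
    · apply hp1
      rw [← hdiv p hp 1, haN, show N - 1 + 1 = N by omega]
      exact dvd_primo hp
  · intro m hm1 hm2
    rw [coprime_iff]
    push Not
    obtain ⟨p, hp, hpi⟩ := hbad (m - a) (by omega) (by omega)
    refine ⟨p, hp, ?_⟩
    rwa [show a + (m - a) = m by omega] at hpi

/-- structure of a gap. -/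
lemma IsGap.pattern {k T : ℕ} (h : IsGap k T) : ∃ a : ℕ, (∀ p ∈ PS k, ¬ p ∣ a) ∧
    (∀ p ∈ PS k, ¬ p ∣ a + T) ∧ ∀ i, 0 < i → i < T → ∃ p ∈ PS k, p ∣ a + i := by
  obtain ⟨a, _, _, _, h1, h2, h3⟩ := h
  refine ⟨a, (coprime_iff k a).mp h1, (coprime_iff k _).mp h2, fun i hi hiT => ?_⟩
  have := h3 (a + i) (by omega) (by omega)
  rw [coprime_iff] at this
  push Not at this
  exact this

lemma gaps_bdd (k : ℕ) : BddAbove {t : ℕ | IsGap k t} :=
  ⟨primo k, fun t ⟨a, _, _, h, _⟩ => by omega⟩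

lemma isGap_J {k : ℕ} (h : 0 < J k) : IsGap k (J k) := by
  have hne : {t : ℕ | IsGap k t}.Nonempty := by
    by_contra hne
    rw [Set.not_nonempty_iff_eq_empty] at hne
    rw [J, hne] at h
    simp at h
  exact Nat.sSup_mem hne (gaps_bdd k)

lemma le_J {k t : ℕ} (h : IsGap k t) : t ≤ J k := le_csSup (gaps_bdd k) h

lemma f_set_nonempty (k : ℕ) : {t : ℕ | 0 < t ∧ Even t ∧ ¬ IsGap k t}.Nonempty := by
  refine ⟨2 * primo k, ?_, ?_, ?_⟩
  · have := primo_pos k; omega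
  · exact even_two_mul _
  · rintro ⟨a, _, _, h, _⟩
    omega

/-- every even integer below `x` being a gap gives a lower bound for `f`. -/
lemma le_f {k : ℕ} {x : ℝ} (h : ∀ t : ℕ, 0 < t → Even t → (t : ℝ) < x → IsGap k t) : x ≤ f k := by
  by_contra hlt
  push Not at hlt
  have hmem := Nat.sInf_mem (f_set_nonempty k)
  exact hmem.2.2 (h _ hmem.1 hmem.2.1 hlt)

end Pool.Agent.helper85.Jac
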