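import Pool.Agent.helper85.JacTransfer
import Pool.Agent.Lib.PrimeSums

/-!
# Coverings give lower bounds for the maximal gap
-/

namespace Pool.Agent.helper85.Jac

open Finset

/-- A covering of `1, …, N` by one residue class for each of the first `k` primes gives a gap of
length larger than `N`. -/
lemma J_gt_of_cover {k N : ℕ} (hk : 1 ≤ k) (hN : 2 ≤ N) (ρ : ℕ → ℕ)
    (hcov : ∀ i, 1 ≤ i → i ≤ N → ∃ p ∈ PS k, p ∣ ρ p + i) : N < J k := by
  classical
  obtain ⟨y, hy, hmod⟩ := crt k ρ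
  set n := primo k with hn
  have hbad : ∀ i, 1 ≤ i → i ≤ N → ¬ Nat.Coprime (y + i) n := by
    intro i h1 h2
    rw [coprime_iff]
    push Not
    obtain ⟨p, hp, hpi⟩ := hcov i h1 h2
    exact ⟨p, hp, (dvd_add_iff_of_modEq (hmod p hp)).mpr hpi⟩
  have h2n : 2 ∣ n := dvd_primo (two_mem hk)
  have hn2 : 2 ≤ n := Nat.le_of_dvd (primo_pos k) h2n
  have hcopm : Nat.Coprime (n - 1) n := by
    rw [coprime_iff]
    intro p hp h
    have h1 : p ∣ n := dvd_primo hp
    have := Nat.dvd_sub h1 h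
    rw [show n - (n - 1) = 1 by omega] at this
    exact (prime_of_mem hp).one_lt.ne' (Nat.dvd_one.mp this)
  have hcopp : Nat.Coprime (n + 1) n := by
    rw [coprime_iff]
    intro p hp h
    have h1 : p ∣ n := dvd_primo hp
    have := (Nat.dvd_add_right h1).mp h
    exact (prime_of_mem hp).one_lt.ne' (Nat.dvd_one.mp this)
  have hy1 : 1 ≤ y := by
    rcases Nat.eq_zero_or_pos y with h | h
    · exfalso
      apply hbad 1 le_rfl (by omega)
      rw [h]
      exact Nat.coprime_one_left n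
    · exact h
  have hyn : y + N < n - 1 := by
    by_contra hle
    push Not at hle
    rcases Nat.lt_or_ge y (n - 1) with h | h
    · apply hbad (n - 1 - y) (by omega) (by omega)
      rw [show y + (n - 1 - y) = n - 1 by omega]
      exact hcopm
    · apply hbad 2 (by omega) hN
      rw [show y + 2 = n + 1 by omega]
      exact hcopp
  -- the coprime numbers on both sides
  have hexa : ∃ a, 1 ≤ a ∧ a ≤ y ∧ Nat.Coprime a n := ⟨1, le_rfl, hy1, Nat.coprime_one_left n⟩
  let Sa := {a ∈ Icc 1 y | Nat.Coprime a n}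
  have hSa : Sa.Nonempty := by
    obtain ⟨a, h1, h2, h3⟩ := hexa
    exact ⟨a, mem_filter.mpr ⟨mem_Icc.mpr ⟨h1, h2⟩, h3⟩⟩
  set a := Sa.max' hSa with ha
  have haS := Sa.max'_mem hSa
  rw [← ha] at haS
  have haS' := mem_filter.mp haS
  rw [mem_Icc] at haS'
  let Sb := {b ∈ Icc (y + N + 1) (n - 1) | Nat.Coprime b n}
  have hSb : Sb.Nonempty := ⟨n - 1, mem_filter.mpr ⟨mem_Icc.mpr ⟨by omega, le_rfl⟩, hcopm⟩⟩
  set b := Sb.min' hSb with hb
  have hbS := Sb.min'_mem hSb
  rw [← hb] at hbS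
  have hbS' := mem_filter.mp hbS
  rw [mem_Icc] at hbS'
  have hgap : IsGap k (b - a) := by
    refine ⟨a, haS'.1.1, by omega, by omega, haS'.2, ?_, ?_⟩
    · rw [show a + (b - a) = b by omega]; exact hbS'.2
    · intro m hm1 hm2 hm3
      rcases Nat.lt_or_ge y m with h | h
      · rcases Nat.lt_or_ge (y + N) m with h' | h'
        · have : m ∈ Sb := mem_filter.mpr ⟨mem_Icc.mpr ⟨by omega, by omega⟩, hm3⟩
          have := Sb.min'_le m this
          rw [← hb] at this
          omega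
        · apply hbad (m - y) (by omega) (by omega)
          rw [show y + (m - y) = m by omega]
          exact hm3
      · have : m ∈ Sa := mem_filter.mpr ⟨mem_Icc.mpr ⟨by omega, h⟩, hm3⟩
        have := Sa.le_max' m this
        rw [← ha] at this
        omega
  have := le_J hgap
  omega

/-- one greedy step. -/
lemma greedy_step (S : Finset ℕ) (p : ℕ) (hp : 0 < p) :
    ∃ c : ℕ, (#{n ∈ S | ¬ p ∣ c + n} : ℝ) ≤ #S * (1 - 1 / (p : ℝ)) := by
  have hp' : (0 : ℝ) < p := by exact_mod_cast hp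
  have hsum : ∑ c ∈ range p, #{n ∈ S | p ∣ c + n} = #S := by
    simp only [card_filter]
    rw [sum_comm]
    rw [card_eq_sum_ones]
    refine sum_congr rfl fun n _ => ?_
    rw [← card_filter]
    rw [card_eq_one]
    refine ⟨(p - n % p) % p, ?_⟩
    ext c
    rw [mem_filter, mem_range, mem_singleton]
    have hmod := Nat.mod_lt n hp
    have e1 : p ∣ c + n ↔ p ∣ c + n % p := by
      have : c + n ≡ c + n % p [MOD p] := (Nat.mod_modEq n p).symm.add_left c
      exact this.dvd_iff (dvd_refl p)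
    rw [e1]
    constructor
    · rintro ⟨h1, h2⟩
      obtain ⟨q, hq⟩ := h2
      have hq2 : q < 2 := by
        by_contra hq2
        push Not at hq2
        have : p * 2 ≤ p * q := Nat.mul_le_mul_left _ hq2
        omega
      interval_cases q
      · have h3 : c = 0 := by omega
        have h4 : n % p = 0 := by omega
        rw [h3, h4, Nat.sub_zero, Nat.mod_self]
      · rcases Nat.eq_zero_or_pos (n % p) with h3 | h3
        · omega
        · rw [Nat.mod_eq_of_lt (by omega)]; omega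
    · intro h
      rcases Nat.eq_zero_or_pos (n % p) with h3 | h3
      · rw [h3, Nat.sub_zero, Nat.mod_self] at h
        subst h
        exact ⟨hp, by rw [h3]; simp⟩
      · rw [Nat.mod_eq_of_lt (by omega)] at h
        refine ⟨by omega, ?_⟩
        rw [h, Nat.sub_add_cancel hmod.le]
  obtain ⟨c, _, hc⟩ := exists_le_of_sum_le (s := range p) ⟨0, mem_range.mpr hp⟩
    (f := fun _ => (#S : ℝ) / p) (g := fun c => (#{n ∈ S | p ∣ c + n} : ℝ)) (by
      rw [sum_const, card_range, nsmul_eq_mul, mul_div_cancel₀ _ hp'.ne']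
      exact_mod_cast hsum.ge)
  refine ⟨c, ?_⟩
  have h1 : #{n ∈ S | p ∣ c + n} + #{n ∈ S | ¬ p ∣ c + n} = #S :=
    card_filter_add_card_filter_not (fun n => p ∣ c + n)
  have h2 : (#{n ∈ S | p ∣ c + n} : ℝ) + #{n ∈ S | ¬ p ∣ c + n} = #S := by exact_mod_cast h1
  have h3 : (#S : ℝ) * (1 - 1 / (p : ℝ)) = #S - #S / p := by ring
  rw [h3]
  linarith

/-- greedy sieving by a set of primes. -/
lemma greedy_cover (S : Finset ℕ) (P : Finset ℕ) (hP : ∀ p ∈ P, 1 ≤ p) :
    ∃ c : ℕ → ℕ, (#{n ∈ S | ∀ p ∈ P, ¬ p ∣ c p + n} : ℝ) ≤ #S * ∏ p ∈ P, (1 - 1 / (p : ℝ)) := by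
  induction P using Finset.induction_on with
  | empty => exact ⟨fun _ => 0, by simp⟩
  | insert q P hq ih =>
    obtain ⟨c, hc⟩ := ih (fun p hp => hP p (mem_insert_of_mem hp))
    obtain ⟨d, hd⟩ := greedy_step {n ∈ S | ∀ p ∈ P, ¬ p ∣ c p + n} q (hP q (mem_insert_self _ _))
    refine ⟨fun p => if p = q then d else c p, ?_⟩
    have e : {n ∈ S | ∀ p ∈ insert q P, ¬ p ∣ (if p = q then d else c p) + n}
        = {n ∈ {n ∈ S | ∀ p ∈ P, ¬ p ∣ c p + n} | ¬ q ∣ d + n} := by
      ext n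
      simp only [mem_filter, mem_insert, forall_eq_or_imp, if_true]
      constructor
      · rintro ⟨h1, h2, h3⟩
        refine ⟨⟨h1, fun p hp => ?_⟩, h2⟩
        have := h3 p hp
        rwa [if_neg (fun h : p = q => hq (h ▸ hp))] at this
      · rintro ⟨⟨h1, h2⟩, h3⟩
        refine ⟨h1, h3, fun p hp => ?_⟩
        rw [if_neg (fun h : p = q => hq (h ▸ hp))]
        exact h2 p hp
    rw [e, prod_insert hq]
    have hq1 : (1 : ℝ) ≤ q := by exact_mod_cast hP q (mem_insert_self _ _)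
    have hnn : 0 ≤ 1 - 1 / (q : ℝ) := by
      rw [sub_nonneg, div_le_one (by linarith)]; exact hq1
    calc _ ≤ (#{n ∈ S | ∀ p ∈ P, ¬ p ∣ c p + n} : ℝ) * (1 - 1 / (q : ℝ)) := hd
      _ ≤ (#S * ∏ p ∈ P, (1 - 1 / (p : ℝ))) * (1 - 1 / (q : ℝ)) :=
          mul_le_mul_of_nonneg_right hc hnn
      _ = _ := by ring

/-- Erdős-Rankin assembly: small primes greedily, medium primes by the zero class, one large
prime for each survivor. -/
lemma J_gt_of_counts {k z w N : ℕ} (hk : 1 ≤ k) (hN : 2 ≤ N) (hzw : z ≤ w)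
    (hw : Nat.primesLE w ⊆ PS k)
    (hT : (#{n ∈ Icc 1 N | ∀ p ∈ Nat.primesLE w, z < p → ¬ p ∣ n} : ℝ)
      * ∏ p ∈ Nat.primesLE z, (1 - 1 / (p : ℝ)) + 2 ≤ #(PS k \ Nat.primesLE w)) : N < J k := by
  classical
  obtain ⟨c, hc⟩ := greedy_cover {n ∈ Icc 1 N | ∀ p ∈ Nat.primesLE w, z < p → ¬ p ∣ n}
    (Nat.primesLE z) (fun p hp => (Nat.mem_primesLE.mp hp).2.one_le)
  set T := {n ∈ {n ∈ Icc 1 N | ∀ p ∈ Nat.primesLE w, z < p → ¬ p ∣ n} |
    ∀ p ∈ Nat.primesLE z, ¬ p ∣ c p + n} with hTdef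
  set Lg := PS k \ Nat.primesLE w with hLg
  have hTcard : #T + 2 ≤ #Lg := by
    have : ((#T + 2 : ℕ) : ℝ) ≤ (#Lg : ℝ) := by
      push_cast
      linarith
    exact_mod_cast this
  obtain ⟨φ, hφ1, hφ2⟩ := greedy (fun _ => ∅) Lg T (by simp) hTcard
  let ρ : ℕ → ℕ := fun p => if p ≤ z then c p else if p ≤ w then 0 else
    if h : ∃ i ∈ T, φ i = p then (p - 1) * h.choose else 0
  refine J_gt_of_cover hk hN ρ ?_
  intro i hi1 hiN
  by_cases h1 : ∀ p ∈ Nat.primesLE w, z < p → ¬ p ∣ i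
  · by_cases h2 : ∀ p ∈ Nat.primesLE z, ¬ p ∣ c p + i
    · have hiT : i ∈ T := by
        rw [hTdef, mem_filter, mem_filter, mem_Icc]
        exact ⟨⟨⟨hi1, hiN⟩, h1⟩, h2⟩
      have hφi := (hφ1 i hiT).1
      obtain ⟨hφk, hφw⟩ := mem_sdiff.mp hφi
      have hpp := prime_of_mem hφk
      have hgt : w < φ i := by
        by_contra hle
        push Not at hle
        exact hφw (Nat.mem_primesLE.mpr ⟨hle, hpp⟩)
      refine ⟨φ i, hφk, ?_⟩
      have hex : ∃ j ∈ T, φ j = φ i := ⟨i, hiT, rfl⟩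
      have e : ρ (φ i) = (φ i - 1) * hex.choose := by
        simp only [ρ]
        rw [if_neg (by omega), if_neg (by omega), dif_pos hex]
      have hj : hex.choose = i := hφ2 _ hex.choose_spec.1 _ hiT hex.choose_spec.2
      rw [e, hj]
      have : (φ i - 1) * i + i = φ i * i := by
        conv_rhs => rw [show φ i = (φ i - 1) + 1 by have := hpp.two_le; omega]
        ring
      rw [this]
      exact dvd_mul_right _ _
    · push Not at h2
      obtain ⟨p, hp, hpi⟩ := h2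
      have hpz := (Nat.mem_primesLE.mp hp).1
      refine ⟨p, hw (Nat.mem_primesLE.mpr ⟨by omega, (Nat.mem_primesLE.mp hp).2⟩), ?_⟩
      have e : ρ p = c p := if_pos hpz
      rw [e]; exact hpi
  · push Not at h1
    obtain ⟨p, hp, hzp, hpi⟩ := h1
    refine ⟨p, hw hp, ?_⟩
    have e : ρ p = 0 := by
      simp only [ρ]
      rw [if_neg (by omega), if_pos (Nat.mem_primesLE.mp hp).1]
    rw [e, zero_add]; exact hpi

lemma primesLE_card (n : ℕ) : #(Nat.primesLE n) = Nat.primeCounting n := by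
  rw [Nat.primesLE_card_eq_primeCounting]

lemma primesLE_subset_PS {w k : ℕ} (h : Nat.primeCounting w ≤ k) : Nat.primesLE w ⊆ PS k := by
  intro p hp
  obtain ⟨hpw, hpp⟩ := Nat.mem_primesLE.mp hp
  refine mem_PS.mpr ⟨Nat.primeCounting' p, ?_, Nat.nth_count hpp⟩
  have h1 : Nat.primeCounting' p < Nat.primeCounting' (p + 1) := by
    unfold Nat.primeCounting'
    rw [Nat.count_succ, if_pos hpp]
    omega
  have h2 : Nat.primeCounting' (p + 1) ≤ Nat.primeCounting' (w + 1) :=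
    Nat.monotone_primeCounting' (by omega)
  have h3 : Nat.primeCounting' (w + 1) = Nat.primeCounting w := rfl
  omega

/-- Chebyshev upper bound with a clean constant. -/
lemma primeCounting_le (n : ℕ) (hn : 2 ≤ n) : (Nat.primeCounting n : ℝ) ≤ 4 * n / Real.log n := by
  have hn1 : (1 : ℝ) < n := by exact_mod_cast (by omega : 1 < n)
  have h := Chebyshev.pi_le_log4_mul_div hn1
  rw [Nat.floor_natCast] at h
  have hlog : 0 < Real.log n := Real.log_pos hn1
  have hs : Real.log (√(n : ℝ)) = Real.log n / 2 := Real.log_sqrt (by linarith)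
  rw [hs] at h
  have h4 : Real.log 4 ≤ 1.4 := by
    have : Real.log 4 = 2 * Real.log 2 := by
      rw [show (4 : ℝ) = 2 ^ 2 by norm_num, Real.log_pow]; norm_num
    rw [this]
    have := Real.log_two_lt_d9
    linarith
  have hsq : √(n : ℝ) ≤ n / Real.log n := by
    rw [le_div_iff₀ hlog]
    have h5 : Real.log n ≤ √(n : ℝ) := by
      have := Real.log_le_sub_one_of_pos (x := √(n : ℝ) / 2) (by positivity)
      have h6 : Real.log (√(n : ℝ) / 2) = Real.log n / 2 - Real.log 2 := by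
        rw [Real.log_div (by positivity) (by norm_num), hs]
      have := Real.log_two_lt_d9
      linarith
    calc √(n : ℝ) * Real.log n ≤ √(n : ℝ) * √(n : ℝ) := by gcongr
      _ = n := Real.mul_self_sqrt (by linarith)
  calc (Nat.primeCounting n : ℝ) ≤ Real.log 4 * n / (Real.log n / 2) + √(n : ℝ) := h
    _ ≤ 1.4 * n / (Real.log n / 2) + n / Real.log n := by gcongr
    _ = 3.8 * n / Real.log n := by field_simp; norm_num
    _ ≤ 4 * n / Real.log n := by gcongr; norm_num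

open Classical in
/-- the number of `n ≤ N` with a prime factor larger than `w`. -/
lemma card_large_factor (N w : ℕ) (hw : 2 ≤ w) :
    (#{n ∈ Icc 1 N | ∃ p, p.Prime ∧ w < p ∧ p ∣ n} : ℝ)
      ≤ 4 * N / Real.log w * (1 + Real.log (N / w : ℕ)) := by
  classical
  have hsub : {n ∈ Icc 1 N | ∃ p, p.Prime ∧ w < p ∧ p ∣ n}
      ⊆ (Icc 1 (N / w)).biUnion (fun m => (Nat.primesLE (N / m)).image (fun p => m * p)) := by
    intro n hn
    rw [mem_filter, mem_Icc] at hn
    obtain ⟨⟨h1, h2⟩, p, hp, hwp, m, hm⟩ := hn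
    have hm1 : 1 ≤ m := Nat.pos_of_ne_zero (by rintro rfl; simp at hm; omega)
    rw [mem_biUnion]
    refine ⟨m, ?_, ?_⟩
    · rw [mem_Icc]
      refine ⟨hm1, ?_⟩
      rw [Nat.le_div_iff_mul_le (by omega)]
      nlinarith
    · rw [mem_image]
      refine ⟨p, ?_, by rw [hm, mul_comm]⟩
      rw [Nat.mem_primesLE]
      refine ⟨?_, hp⟩
      rw [Nat.le_div_iff_mul_le hm1]
      rw [← hm]; exact h2
  have h1 : #{n ∈ Icc 1 N | ∃ p, p.Prime ∧ w < p ∧ p ∣ n}
      ≤ ∑ m ∈ Icc 1 (N / w), Nat.primeCounting (N / m) := by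
    refine (card_le_card hsub).trans (card_biUnion_le.trans (sum_le_sum fun m _ => ?_))
    exact card_image_le.trans (primesLE_card _).le
  have hlw : 0 < Real.log w := Real.log_pos (by exact_mod_cast (by omega : 1 < w))
  have h2 : ∀ m ∈ Icc 1 (N / w), (Nat.primeCounting (N / m) : ℝ) ≤ 4 * N / Real.log w * (m : ℝ)⁻¹ := by
    intro m hm
    obtain ⟨hm1, hm2⟩ := mem_Icc.mp hm
    have hm0 : (0 : ℝ) < m := by exact_mod_cast hm1
    have hwle : w ≤ N / m := by
      rw [Nat.le_div_iff_mul_le hm1]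
      have := (Nat.le_div_iff_mul_le (by omega)).mp hm2
      rwa [mul_comm] at this
    have e1 := primeCounting_le (N / m) (by omega)
    have e2 : Real.log w ≤ Real.log (N / m : ℕ) :=
      Real.log_le_log (by exact_mod_cast (by omega : 0 < w)) (by exact_mod_cast hwle)
    calc (Nat.primeCounting (N / m) : ℝ) ≤ 4 * (N / m : ℕ) / Real.log (N / m : ℕ) := e1
      _ ≤ 4 * (N / m : ℕ) / Real.log w := by gcongr
      _ ≤ 4 * ((N : ℝ) / m) / Real.log w := by
          gcongr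
          exact Nat.cast_div_le
      _ = _ := by field_simp
  have h3 : ∑ m ∈ Icc 1 (N / w), ((m : ℝ)⁻¹) ≤ 1 + Real.log (N / w : ℕ) := by
    have := harmonic_le_one_add_log (N / w)
    rw [harmonic_eq_sum_Icc] at this
    push_cast at this
    exact this
  calc (#{n ∈ Icc 1 N | ∃ p, p.Prime ∧ w < p ∧ p ∣ n} : ℝ)
      ≤ ((∑ m ∈ Icc 1 (N / w), Nat.primeCounting (N / m) : ℕ) : ℝ) := by exact_mod_cast h1
    _ = ∑ m ∈ Icc 1 (N / w), (Nat.primeCounting (N / m) : ℝ) := by push_cast; rfl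
    _ ≤ ∑ m ∈ Icc 1 (N / w), 4 * N / Real.log w * (m : ℝ)⁻¹ := sum_le_sum h2
    _ = 4 * N / Real.log w * ∑ m ∈ Icc 1 (N / w), (m : ℝ)⁻¹ := by rw [mul_sum]
    _ ≤ _ := by gcongr

/-- splitting the survivors of the medium primes. -/
lemma card_survivors (N z w : ℕ) (hw : 2 ≤ w) :
    (#{n ∈ Icc 1 N | ∀ p ∈ Nat.primesLE w, z < p → ¬ p ∣ n} : ℝ)
      ≤ #{n ∈ Icc 1 N | n ∈ (z + 1).smoothNumbers}
        + 4 * N / Real.log w * (1 + Real.log (N / w : ℕ)) := by
  classical
  have hsub : {n ∈ Icc 1 N | ∀ p ∈ Nat.primesLE w, z < p → ¬ p ∣ n}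
      ⊆ {n ∈ Icc 1 N | n ∈ (z + 1).smoothNumbers} ∪ {n ∈ Icc 1 N | ∃ p, p.Prime ∧ w < p ∧ p ∣ n} := by
    intro n hn
    rw [mem_filter] at hn
    rw [mem_union, mem_filter, mem_filter]
    by_cases h : ∃ p, p.Prime ∧ w < p ∧ p ∣ n
    · exact Or.inr ⟨hn.1, h⟩
    · left
      refine ⟨hn.1, ?_⟩
      push Not at h
      rw [Nat.mem_smoothNumbers']
      intro p hp hpn
      by_contra hlt
      exact hn.2 p (Nat.mem_primesLE.mpr ⟨not_lt.mp fun h' => h p hp h' hpn, hp⟩) (by omega) hpn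
  have h1 : (#{n ∈ Icc 1 N | ∀ p ∈ Nat.primesLE w, z < p → ¬ p ∣ n} : ℝ)
      ≤ #{n ∈ Icc 1 N | n ∈ (z + 1).smoothNumbers} + #{n ∈ Icc 1 N | ∃ p, p.Prime ∧ w < p ∧ p ∣ n} := by
    exact_mod_cast (card_le_card hsub).trans (card_union_le _ _)
  have h2 := card_large_factor N w hw
  linarith

end Pool.Agent.helper85.Jac
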