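import Mathlib

/-!
# Gaps between integers coprime to a primorial: definitions
-/

namespace Pool.Agent.helper85.Jac

/-- The `k`-th primorial `n_k = p_1 p_2 ⋯ p_k` (product of the first `k` primes). -/
noncomputable def primo (k : ℕ) : ℕ := ∏ i ∈ Finset.range k, Nat.nth Nat.Prime i

/-- `t` is a gap `a_{i+1} - a_i` between two consecutive integers of `[1, n_k)` coprime to `n_k`. -/
def IsGap (k t : ℕ) : Prop :=
  ∃ a : ℕ, 1 ≤ a ∧ 0 < t ∧ a + t < primo k ∧
    Nat.Coprime a (primo k) ∧ Nat.Coprime (a + t) (primo k) ∧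
    ∀ m : ℕ, a < m → m < a + t → ¬ Nat.Coprime m (primo k)

/-- `f k` is the least positive even integer that is not a gap for `n_k`. -/
noncomputable def f (k : ℕ) : ℕ := sInf {t : ℕ | 0 < t ∧ Even t ∧ ¬ IsGap k t}

/-- `J k` is the largest gap for `n_k`. -/
noncomputable def J (k : ℕ) : ℕ := sSup {t : ℕ | IsGap k t}

end Pool.Agent.helper85.Jac
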