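import Pool.Agent.helper85.JacAverage

/-!
# Every even number up to (essentially) Jacobsthal's maximal gap is a gap
-/

namespace Pool.Agent.helper85.Jac

open Finset Filter Pool.Agent.Lib.BrunHooley

lemma exists_level (B r₁ : ℕ) (hB : 1 ≤ B) (x : ℝ) (hx : (Z r₁ : ℝ) ^ B ≤ x) :
    ∃ r, r₁ ≤ r ∧ (Z r : ℝ) ^ B ≤ x ∧ x < ((Z r : ℝ) ^ B) ^ 2 := by
  have hunb : ∃ r, x < (Z r : ℝ) ^ B := by
    obtain ⟨n, hn⟩ := exists_nat_gt x
    refine ⟨n, hn.trans_le ?_⟩
    have h1 : n ≤ Z n := by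
      have h1 : n < 2 ^ n := Nat.lt_two_pow_self
      have h2 : 2 ^ n < 2 ^ 2 ^ n := Nat.pow_lt_pow_right (by norm_num) h1
      unfold Z; omega
    have h2 : Z n ≤ Z n ^ B := Nat.le_self_pow (by omega) _
    exact_mod_cast h1.trans h2
  classical
  set m := Nat.find hunb with hm
  have h1 := Nat.find_spec hunb
  rw [← hm] at h1
  have hm1 : r₁ < m := by
    by_contra hle
    push Not at hle
    have : (Z m : ℝ) ^ B ≤ (Z r₁ : ℝ) ^ B := by
      gcongr
      exact Z_mono hle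
    linarith
  refine ⟨m - 1, by omega, ?_, ?_⟩
  · have := Nat.find_min hunb (m := m - 1) (by omega)
    push Not at this
    exact this
  · have e : Z m = Z (m - 1) * Z (m - 1) := by
      have := Z_succ (m - 1)
      rwa [show m - 1 + 1 = m by omega] at this
    rw [e] at h1
    push_cast at h1
    calc x < ((Z (m - 1) : ℝ) * Z (m - 1)) ^ B := h1
      _ = _ := by ring

/-- **Main theorem.** For every `η ∈ (0,1]` there is `δ > 0` such that for all large `k`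
`f(k) ≥ min (J(k - ⌈k^(1-δ)⌉) - k^η, k^(1+δ))`. -/
theorem transfer_main : ∀ η : ℝ, 0 < η → η ≤ 1 → ∃ δ : ℝ, 0 < δ ∧ ∀ᶠ k : ℕ in atTop,
    min ((J (k - ⌈(k : ℝ) ^ (1 - δ)⌉₊) : ℝ) - (k : ℝ) ^ η) ((k : ℝ) ^ (1 + δ)) ≤ (f k : ℝ) := by
  intro η hη hη1
  obtain ⟨B₀, r₀, hshift⟩ := exists_shift
  set B := max B₀ 2 with hB
  have hB2 : 2 ≤ B := le_max_right _ _
  have hBpos : (0 : ℝ) < B := by positivity
  set δ : ℝ := η / (16 * B) with hδ
  have hδpos : 0 < δ := by positivity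
  have hδB : δ * (16 * B) = η := by rw [hδ]; field_simp
  have hδ32 : δ ≤ 1 / 32 := by
    have hB2' : (2 : ℝ) ≤ B := by exact_mod_cast hB2
    rw [hδ, div_le_div_iff₀ (by positivity) (by norm_num)]
    nlinarith
  refine ⟨δ, hδpos, ?_⟩
  -- asymptotic facts
  have A1 : ∀ᶠ k : ℕ in atTop, (Z (max r₀ 1) : ℝ) ^ B ≤ (k : ℝ) ^ η :=
    ((tendsto_rpow_atTop hη).comp tendsto_natCast_atTop_atTop).eventually_ge_atTop _
  have A2 : ∀ᶠ k : ℕ in atTop, (16 : ℝ) ≤ (k : ℝ) ^ δ :=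
    ((tendsto_rpow_atTop hδpos).comp tendsto_natCast_atTop_atTop).eventually_ge_atTop _
  have A3 : ∀ᶠ k : ℕ in atTop, Real.log (k : ℝ) ≤ (1 / 2) * (k : ℝ) ^ δ := by
    have h := (isLittleO_log_rpow_atTop hδpos).bound (by norm_num : (0 : ℝ) < 1 / 2)
    have h' := tendsto_natCast_atTop_atTop.eventually h
    filter_upwards [h', eventually_ge_atTop 1] with k hk hk1
    have e1 : 0 ≤ Real.log (k : ℝ) := Real.log_nonneg (by exact_mod_cast hk1)
    have e2 : (0 : ℝ) ≤ (k : ℝ) ^ δ := by positivity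
    rwa [Real.norm_of_nonneg e1, Real.norm_of_nonneg e2] at hk
  filter_upwards [A1, A2, A3, eventually_ge_atTop 256] with k h1 h2 h3 hk
  have hk1 : (1 : ℝ) ≤ k := by exact_mod_cast (by omega : 1 ≤ k)
  have hk0 : (0 : ℝ) < k := by linarith
  have hk256 : (256 : ℝ) ≤ k := by exact_mod_cast hk
  set L := 1 + Real.log k with hL
  have hLle : L ≤ (k : ℝ) ^ δ := by rw [hL]; linarith
  have hL1 : 1 ≤ L := by rw [hL]; linarith [Real.log_nonneg hk1]
  set m := ⌈(k : ℝ) ^ (1 - δ)⌉₊ with hm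
  have hm_ge : (k : ℝ) ^ (1 - δ) ≤ m := Nat.le_ceil _
  have hpow1 : (k : ℝ) ^ (1 - δ) * (k : ℝ) ^ δ = k := by
    rw [← Real.rpow_add hk0]; norm_num
  have hpow1pos : 0 < (k : ℝ) ^ (1 - δ) := by positivity
  have hpow_le : (k : ℝ) ^ (1 - δ) ≤ k / 16 := by
    rw [le_div_iff₀ (by norm_num)]
    nlinarith
  have hm_le : (m : ℝ) ≤ k / 8 := by
    have : (m : ℝ) < (k : ℝ) ^ (1 - δ) + 1 := Nat.ceil_lt_add_one hpow1pos.le
    linarith
  have hmk : m ≤ k := by
    have : (m : ℝ) ≤ k := by linarith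
    exact_mod_cast this
  set k' := k - m with hk'
  have hk'k : k' ≤ k := Nat.sub_le _ _
  have hkk' : k - k' = m := by omega
  have hk'half : (k : ℝ) / 2 ≤ k' := by
    rw [hk', Nat.cast_sub hmk]; linarith
  have hk'1 : 1 ≤ k' := by
    have : (1 : ℝ) ≤ k' := by linarith
    exact_mod_cast this
  refine le_f fun t ht0 hte htlt => ?_
  rcases Nat.lt_or_ge 2 t with ht2 | ht2
  swap
  · have : t = 2 := by
      obtain ⟨u, hu⟩ := hte
      omega
    subst this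
    exact isGap_two (by omega)
  have htJ : (t : ℝ) + (k : ℝ) ^ η < J k' := by
    have := htlt.trans_le (min_le_left _ _)
    linarith
  have htk : (t : ℝ) ≤ (k : ℝ) ^ (1 + δ) := (htlt.trans_le (min_le_right _ _)).le
  have hJpos : 0 < J k' := by
    have h1 : (0 : ℝ) ≤ (k : ℝ) ^ η := by positivity
    have h2 : (0 : ℝ) ≤ t := Nat.cast_nonneg t
    have : (0 : ℝ) < J k' := by linarith
    exact_mod_cast this
  obtain ⟨a, _, _, hcov⟩ := (isGap_J hJpos).pattern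
  obtain ⟨r, hr, hrle, hrlt⟩ := exists_level B (max r₀ 1) (by omega) _ h1
  have hr0 : r₀ ≤ r := (le_max_left _ _).trans hr
  have hr1 : 1 ≤ r := (le_max_right _ _).trans hr
  set H := (Z r) ^ B with hH
  have hHreal : (H : ℝ) = (Z r : ℝ) ^ B := by rw [hH]; push_cast; rfl
  have hZB : (Z r) ^ B₀ ≤ H := Nat.pow_le_pow_right (Z_pos r) (le_max_left _ _)
  have hHpos : 0 < H := Nat.pow_pos (Z_pos r)
  obtain ⟨s, _, hsH, hsp, hcost⟩ := hshift r k' a t H hr0 hk'1 hte hZB hHpos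
  -- the quantity `y = √z`
  set y : ℝ := (Z (r - 1) : ℝ) with hy
  have hy1 : 1 ≤ y := by rw [hy]; exact_mod_cast Z_pos (r - 1)
  have hy0 : 0 < y := by linarith
  have hzy : (Z r : ℝ) = y ^ 2 := by
    have := Z_succ (r - 1)
    rw [show r - 1 + 1 = r by omega] at this
    rw [hy, this]; push_cast; ring
  have hHy : (H : ℝ) = y ^ (2 * B) := by rw [hHreal, hzy, ← pow_mul]
  have hHy4 : y ^ 4 ≤ H := by
    rw [hHy]; exact pow_le_pow_right₀ hy1 (by omega)
  -- `y ≥ k^(4δ)`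
  have hy_lower : (k : ℝ) ^ (4 * δ) ≤ y := by
    have e1 : (k : ℝ) ^ η < y ^ (4 * B) := by
      rw [← hHreal, hHy] at hrlt
      calc (k : ℝ) ^ η < (y ^ (2 * B)) ^ 2 := hrlt
        _ = y ^ (4 * B) := by rw [← pow_mul]; congr 1; ring
    have e2 : ((k : ℝ) ^ (4 * δ)) ^ (4 * B) = (k : ℝ) ^ η := by
      rw [← Real.rpow_natCast, ← Real.rpow_mul hk0.le]
      congr 1
      push_cast
      linarith
    rw [← e2] at e1
    exact (lt_of_pow_lt_pow_left₀ (4 * B) hy0.le e1).le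
  have hy_upper : y ≤ (k : ℝ) ^ (8 * δ) := by
    have e1 : y ^ (2 * B) ≤ (k : ℝ) ^ η := by rw [← hHy, hHreal]; exact hrle
    have e2 : ((k : ℝ) ^ (8 * δ)) ^ (2 * B) = (k : ℝ) ^ η := by
      rw [← Real.rpow_natCast, ← Real.rpow_mul hk0.le]
      congr 1
      push_cast
      linarith
    rw [← e2] at e1
    exact le_of_pow_le_pow_left₀ (by omega) (by positivity) e1
  set cost : ℝ := ∑ p ∈ hitSet k' a s t, ((t / p + 1 : ℕ) : ℝ) with hcostdef
  have hcost0 : 0 ≤ cost := sum_nonneg fun _ _ => Nat.cast_nonneg _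
  have hHpos' : (0 : ℝ) < H := by exact_mod_cast hHpos
  have ht0' : (0 : ℝ) ≤ t := Nat.cast_nonneg t
  have hk'le : (k' : ℝ) ≤ k := by exact_mod_cast hk'k
  have hk'pos : (0 : ℝ) < k' := by linarith
  have hLk' : 1 + Real.log k' ≤ L := by
    rw [hL]
    have := Real.log_le_log hk'pos hk'le
    linarith
  have hLk'0 : 0 ≤ 1 + Real.log k' := by
    have : (1 : ℝ) ≤ k' := by exact_mod_cast hk'1
    linarith [Real.log_nonneg this]
  -- bound for the cost
  have hcost1 : cost ≤ 2 * (2 * (t / y) * L + y * L + k / y) := by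
    have e1 : cost * H ≤ y * (2 * (t * H * L / y ^ 2 + (t + H) * L + k)) := by
      refine hcost.trans ?_
      rw [hzy]
      gcongr
    have e2 : y * (2 * (t * H * L / y ^ 2 + (t + H) * L + k))
        = 2 * (t / y * L * H + y * t * L + y * L * H + y * k) := by
      field_simp
      ring
    have e3 : y * t * L ≤ t / y * L * H := by
      have : y * t * L = t / y * L * y ^ 2 := by field_simp
      rw [this]
      have h2 : y ^ 2 ≤ H := (pow_le_pow_right₀ hy1 (by norm_num)).trans hHy4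
      gcongr
    have e4 : y * k ≤ k / y * H := by
      have : y * k = k / y * y ^ 2 := by field_simp
      rw [this]
      have h2 : y ^ 2 ≤ H := (pow_le_pow_right₀ hy1 (by norm_num)).trans hHy4
      gcongr
    have e5 : cost * H ≤ (2 * (2 * (t / y) * L + y * L + k / y)) * H := by
      rw [e2] at e1
      have e6 : (2 * (2 * (t / y) * L + y * L + k / y)) * H
          = 2 * (2 * (t / y * L * H) + y * L * H + k / y * H) := by ring
      rw [e6]
      linarith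
    exact le_of_mul_le_mul_right e5 hHpos'
  have hcost2 : cost ≤ 8 * (k : ℝ) ^ (1 - 2 * δ) := by
    have p1 : (t : ℝ) / y ≤ (k : ℝ) ^ (1 - 3 * δ) := by
      rw [div_le_iff₀ hy0]
      calc (t : ℝ) ≤ (k : ℝ) ^ (1 + δ) := htk
        _ = (k : ℝ) ^ (1 - 3 * δ) * (k : ℝ) ^ (4 * δ) := by
            rw [← Real.rpow_add hk0]; congr 1; ring
        _ ≤ _ := by gcongr
    have p2 : y ≤ (k : ℝ) ^ (1 - 3 * δ) :=
      hy_upper.trans (Real.rpow_le_rpow_of_exponent_le hk1 (by linarith))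
    have p3 : (k : ℝ) / y ≤ (k : ℝ) ^ (1 - 2 * δ) := by
      rw [div_le_iff₀ hy0]
      calc (k : ℝ) = (k : ℝ) ^ (1 - 2 * δ) * (k : ℝ) ^ (2 * δ) := by
            rw [← Real.rpow_add hk0]; norm_num
        _ ≤ (k : ℝ) ^ (1 - 2 * δ) * (k : ℝ) ^ (4 * δ) :=
            mul_le_mul_of_nonneg_left (Real.rpow_le_rpow_of_exponent_le hk1 (by linarith))
              (by positivity)
        _ ≤ _ := by gcongr
    have p4 : (k : ℝ) ^ (1 - 3 * δ) * L ≤ (k : ℝ) ^ (1 - 2 * δ) := by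
      calc (k : ℝ) ^ (1 - 3 * δ) * L ≤ (k : ℝ) ^ (1 - 3 * δ) * (k : ℝ) ^ δ := by gcongr
        _ = _ := by rw [← Real.rpow_add hk0]; congr 1; ring
    have p5 : (t : ℝ) / y * L ≤ (k : ℝ) ^ (1 - 2 * δ) := le_trans (by gcongr) p4
    have p6 : y * L ≤ (k : ℝ) ^ (1 - 2 * δ) := le_trans (by gcongr) p4
    linarith
  have hfinal : cost + 2 ≤ m := by
    refine le_trans ?_ hm_ge
    have q1 : (k : ℝ) ^ (1 - 2 * δ) * (k : ℝ) ^ δ = (k : ℝ) ^ (1 - δ) := by
      rw [← Real.rpow_add hk0]; congr 1; ring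
    have q2 : (4 : ℝ) ≤ (k : ℝ) ^ (1 - δ) := by
      calc (4 : ℝ) ≤ (256 : ℝ) ^ (1 / 2 : ℝ) := by
            rw [show (256 : ℝ) = 16 ^ (2 : ℝ) by norm_num, ← Real.rpow_mul (by norm_num)]
            norm_num
        _ ≤ (k : ℝ) ^ (1 / 2 : ℝ) := by gcongr
        _ ≤ (k : ℝ) ^ (1 - δ) := Real.rpow_le_rpow_of_exponent_le hk1 (by linarith)
    have q3 : 0 ≤ (k : ℝ) ^ (1 - 2 * δ) := by positivity
    have q4 := mul_le_mul_of_nonneg_left h2 q3
    rw [q1] at q4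
    linarith
  have hfinalN : ∑ p ∈ hitSet k' a s t, (t / p + 1) + 2 ≤ k - k' := by
    rw [hkk']
    have : ((∑ p ∈ hitSet k' a s t, (t / p + 1) + 2 : ℕ) : ℝ) ≤ (m : ℝ) := by
      push_cast [hcostdef] at hfinal ⊢
      exact hfinal
    exact_mod_cast this
  have hsT : s + t ≤ J k' := by
    have e1 : (H : ℝ) ≤ (k : ℝ) ^ η := by rw [hHreal]; exact hrle
    have e2 : (s : ℝ) ≤ H := by exact_mod_cast hsH
    have : ((s + t : ℕ) : ℝ) ≤ (J k' : ℝ) := by push_cast; linarith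
    exact_mod_cast this
  have h2z : (2 : ℕ) ≤ Z r := two_le_Z r
  have hbig : t < (Nat.nth Nat.Prime k') ^ 2 := by
    have e1 := Nat.add_two_le_nth_prime k'
    have e2 : (k : ℝ) / 2 < (Nat.nth Nat.Prime k' : ℕ) := by
      have : ((k' + 2 : ℕ) : ℝ) ≤ (Nat.nth Nat.Prime k' : ℕ) := by exact_mod_cast e1
      push_cast at this
      linarith
    have e3 : (k : ℝ) ^ (1 + δ) ≤ (k / 2) ^ 2 := by
      have q2 : (4 : ℝ) ≤ (k : ℝ) ^ (1 - δ) := by
        calc (4 : ℝ) ≤ (256 : ℝ) ^ (1 / 2 : ℝ) := by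
              rw [show (256 : ℝ) = 16 ^ (2 : ℝ) by norm_num, ← Real.rpow_mul (by norm_num)]
              norm_num
          _ ≤ (k : ℝ) ^ (1 / 2 : ℝ) := by gcongr
          _ ≤ (k : ℝ) ^ (1 - δ) := Real.rpow_le_rpow_of_exponent_le hk1 (by linarith)
      have q3 : (k : ℝ) ^ (1 + δ) * (k : ℝ) ^ (1 - δ) = k ^ 2 := by
        rw [← Real.rpow_add hk0]; norm_num
      have q4 : 0 < (k : ℝ) ^ (1 + δ) := by positivity
      have q5 := mul_le_mul_of_nonneg_left q2 q4.le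
      rw [q3] at q5
      have q6 : ((k : ℝ) / 2) ^ 2 = k ^ 2 / 4 := by ring
      rw [q6]
      linarith
    have e4 : (t : ℝ) < ((Nat.nth Nat.Prime k' : ℕ) : ℝ) ^ 2 := by
      calc (t : ℝ) ≤ (k / 2) ^ 2 := htk.trans e3
        _ < _ := by gcongr
    exact_mod_cast e4
  exact transfer hk'1 hk'k ht0 hcov hsT (hsp 2 Nat.prime_two h2z).1 (hsp 2 Nat.prime_two h2z).2
    hfinalN hbig ht2

end Pool.Agent.helper85.Jac
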