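import Pool.Agent.helper85.JacBasic

/-!
# Transfer of coverings to prescribed end points
-/

namespace Pool.Agent.helper85.Jac

open Finset

/-- greedy injective assignment avoiding at most two bad values for each element. -/
lemma greedy (bad : ℕ → Finset ℕ) (N : Finset ℕ) (U : Finset ℕ) :
    (∀ i ∈ U, #(bad i ∩ N) ≤ 2) → #U + 2 ≤ #N →
    ∃ φ : ℕ → ℕ, (∀ i ∈ U, φ i ∈ N ∧ φ i ∉ bad i) ∧ ∀ i ∈ U, ∀ j ∈ U, φ i = φ j → i = j := by
  induction U using Finset.induction_on with
  | empty => intro _ _; exact ⟨fun _ => 0, by simp, by simp⟩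
  | insert u U hu ih =>
    intro hb hc
    rw [card_insert_of_notMem hu] at hc
    obtain ⟨φ, h1, h2⟩ := ih (fun i hi => hb i (mem_insert_of_mem hi)) (by omega)
    have : ((N \ (U.image φ)) \ (bad u ∩ N)).Nonempty := by
      rw [← card_pos]
      have e1 := le_card_sdiff (U.image φ) N
      have e2 := le_card_sdiff (bad u ∩ N) (N \ (U.image φ))
      have e3 : #(U.image φ) ≤ #U := card_image_le
      have e4 := hb u (mem_insert_self _ _)
      omega
    obtain ⟨q, hq⟩ := this
    simp only [mem_sdiff, mem_inter, mem_image, not_exists, not_and] at hq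
    obtain ⟨⟨hqN, hqU⟩, hqb⟩ := hq
    refine ⟨fun i => if i = u then q else φ i, ?_, ?_⟩
    · intro i hi
      by_cases hiu : i = u
      · subst hiu
        simp only [if_true]
        exact ⟨hqN, fun h => hqb h hqN⟩
      · simp only [hiu, if_false]
        exact h1 i (mem_of_mem_insert_of_ne hi hiu)
    · intro i hi j hj hij
      by_cases hiu : i = u <;> by_cases hju : j = u
      · rw [hiu, hju]
      · simp only [hiu, if_true, hju, if_false] at hij
        exact absurd hij.symm (hqU j (mem_of_mem_insert_of_ne hj hju))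
      · simp only [hiu, if_false, hju, if_true] at hij
        exact absurd hij (hqU i (mem_of_mem_insert_of_ne hi hiu))
      · simp only [hiu, hju, if_false] at hij
        exact h2 i (mem_of_mem_insert_of_ne hi hiu) j (mem_of_mem_insert_of_ne hj hju) hij

/-- the primes of `PS k'` hitting one of the endpoints. -/
noncomputable def hitSet (k' a s t : ℕ) : Finset ℕ := {p ∈ PS k' | p ∣ a + s ∨ p ∣ a + s + t}

lemma card_dvd_Ioo (p b t : ℕ) (hp : 0 < p) : #{i ∈ Ioo 0 t | p ∣ b + i} ≤ t / p + 1 := by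
  have h1 : #{i ∈ Ioo 0 t | p ∣ b + i} ≤ #(Ioc (b / p) ((b + t) / p)) := by
    refine card_le_card_of_injOn (fun i => (b + i) / p) ?_ ?_
    · intro i hi
      rw [mem_coe, mem_filter, mem_Ioo] at hi
      rw [mem_coe, mem_Ioc]
      constructor
      · rw [Nat.div_lt_iff_lt_mul hp, Nat.div_mul_cancel hi.2]; omega
      · exact Nat.div_le_div_right (by omega)
    · intro i hi j hj hij
      rw [mem_coe, mem_filter, mem_Ioo] at hi hj
      have e1 := Nat.div_mul_cancel hi.2
      have e2 := Nat.div_mul_cancel hj.2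
      simp only at hij
      rw [hij] at e1
      omega
  refine h1.trans ?_
  rw [Nat.card_Ioc]
  have h2 : (b + t) / p ≤ b / p + t / p + 1 := by
    rw [Nat.add_div hp]
    split_ifs <;> omega
  exact Nat.sub_le_iff_le_add.mpr (by linarith)

lemma transfer {k k' a T s t : ℕ} (hk' : 1 ≤ k') (hkk : k' ≤ k) (ht : 0 < t)
    (hcov : ∀ i, 0 < i → i < T → ∃ p ∈ PS k', p ∣ a + i) (hsT : s + t ≤ T)
    (h2a : ¬ 2 ∣ a + s) (h2b : ¬ 2 ∣ a + s + t)
    (hcost : ∑ p ∈ hitSet k' a s t, (t / p + 1) + 2 ≤ k - k')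
    (hbig : t < (Nat.nth Nat.Prime k') ^ 2) (ht2 : 2 < t) : IsGap k t := by
  classical
  set Q := hitSet k' a s t with hQ
  set N := PS k \ PS k' with hN
  have hNcard : #N = k - k' := by
    rw [hN, card_sdiff_of_subset (PS_mono hkk), card_PS, card_PS]
  set U := {i ∈ Ioo 0 t | ∀ p ∈ PS k' \ Q, ¬ p ∣ a + s + i} with hU
  have hUcard : #U ≤ ∑ p ∈ Q, (t / p + 1) := by
    have hsub : U ⊆ Q.biUnion (fun p => {i ∈ Ioo 0 t | p ∣ a + s + i}) := by
      intro i hi
      rw [hU, mem_filter, mem_Ioo] at hi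
      obtain ⟨p, hp, hpi⟩ := hcov (s + i) (by omega) (by omega)
      rw [← add_assoc] at hpi
      rw [mem_biUnion]
      refine ⟨p, ?_, ?_⟩
      · by_contra hpQ
        exact hi.2 p (mem_sdiff.mpr ⟨hp, hpQ⟩) hpi
      · rw [mem_filter, mem_Ioo]; exact ⟨hi.1, hpi⟩
    refine (card_le_card hsub).trans (card_biUnion_le.trans (sum_le_sum fun p hp => ?_))
    exact card_dvd_Ioo p _ t (prime_of_mem (mem_filter.mp hp).1).pos
  have hNprime : ∀ p ∈ N, p.Prime := fun p hp => prime_of_mem (mem_sdiff.mp hp).1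
  have hNbig : ∀ p ∈ N, Nat.nth Nat.Prime k' ≤ p := by
    intro p hp
    obtain ⟨h1, h2⟩ := mem_sdiff.mp hp
    obtain ⟨i, hi, rfl⟩ := mem_PS.mp h1
    have : k' ≤ i := by
      by_contra h
      exact h2 (mem_PS.mpr ⟨i, by omega, rfl⟩)
    exact Nat.nth_monotone Nat.infinite_setOfPred_prime this
  -- at most one new prime divides a positive integer below `t`
  have hone : ∀ n, 0 < n → n < t → #{p ∈ N | p ∣ n} ≤ 1 := by
    intro n hn hnt
    rw [card_le_one]
    intro p hp q hq
    rw [mem_filter] at hp hq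
    by_contra hne
    have hcop : Nat.Coprime p q := (Nat.coprime_primes (hNprime p hp.1) (hNprime q hq.1)).mpr hne
    have hdvd := hcop.mul_dvd_of_dvd_of_dvd hp.2 hq.2
    have h1 := Nat.le_of_dvd hn hdvd
    have h2 := Nat.mul_le_mul (hNbig p hp.1) (hNbig q hq.1)
    nlinarith
  obtain ⟨φ, hφ1, hφ2⟩ := greedy (fun i => {p ∈ N | p ∣ i} ∪ {p ∈ N | p ∣ t - i}) N U (by
    intro i hi
    rw [hU, mem_filter, mem_Ioo] at hi
    refine (card_le_card inter_subset_left).trans ((card_union_le _ _).trans ?_)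
    have e1 := hone i hi.1.1 hi.1.2
    have e2 := hone (t - i) (by omega) (by omega)
    omega) (by omega)
  -- residues
  let spare : ℕ → ℕ := fun p => if p ∣ 1 + t then 2 else 1
  let ρ : ℕ → ℕ := fun p => if p ∈ PS k' ∧ p ∉ Q then a + s else
    if h : ∃ i ∈ U, φ i = p then (p - 1) * h.choose else spare p
  have hsp : ∀ p, p.Prime → p ≠ 2 → ¬ p ∣ spare p ∧ ¬ p ∣ spare p + t := by
    intro p hp hp2
    have hp3 := hp.two_le
    simp only [spare]
    split_ifs with h
    · refine ⟨fun h' => ?_, fun h' => ?_⟩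
      · have := Nat.le_of_dvd (by norm_num) h'
        omega
      · have e : 2 + t = (1 + t) + 1 := by ring
        rw [e] at h'
        have := (Nat.dvd_add_right h).mp h'
        exact hp.one_lt.ne' (Nat.dvd_one.mp this)
    · refine ⟨fun h' => hp.one_lt.ne' (Nat.dvd_one.mp h'), h⟩
  have hQ2 : 2 ∉ Q := by
    rw [hQ, hitSet, mem_filter]
    rintro ⟨_, h | h⟩
    · exact h2a h
    · exact h2b h
  have h2k' := two_mem hk'
  have hmain : ∀ p ∈ PS k, ¬ p ∣ ρ p ∧ ¬ p ∣ ρ p + t := by
    intro p hp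
    have hpp := prime_of_mem hp
    by_cases h : p ∈ PS k' ∧ p ∉ Q
    · have e : ρ p = a + s := if_pos h
      rw [e]
      have := h.2
      rw [hQ, hitSet, mem_filter] at this
      push Not at this
      exact this h.1
    · by_cases h' : ∃ i ∈ U, φ i = p
      · have e : ρ p = (p - 1) * h'.choose := by
          simp only [ρ]; rw [if_neg h, dif_pos h']
        rw [e]
        set i := h'.choose with hi
        obtain ⟨hiU, hip⟩ := h'.choose_spec
        rw [← hi] at hiU hip
        have hb := (hφ1 i hiU)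
        rw [hip] at hb
        simp only [mem_union, mem_filter, not_or, not_and] at hb
        rw [hU, mem_filter, mem_Ioo] at hiU
        have n1 : ¬ p ∣ i := hb.2.1 hb.1
        have n2 : ¬ p ∣ t - i := hb.2.2 hb.1
        have hcop : ¬ p ∣ p - 1 := by
          intro hd
          have := Nat.le_of_dvd (by have := hpp.two_le; omega) hd
          have := hpp.two_le
          omega
        refine ⟨fun hd => ?_, fun hd => ?_⟩
        · rcases hpp.dvd_mul.mp hd with hd | hd
          · exact hcop hd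
          · exact n1 hd
        · have e2 : (p - 1) * i + t = p * i + (t - i) := by
            have : p * i = (p - 1) * i + i := by
              conv_lhs => rw [show p = (p - 1) + 1 by have := hpp.two_le; omega]
              ring
            omega
          rw [e2] at hd
          exact n2 ((Nat.dvd_add_right (dvd_mul_right p i)).mp hd)
      · have e : ρ p = spare p := by
          simp only [ρ]; rw [if_neg h, dif_neg h']
        rw [e]
        refine hsp p hpp ?_
        rintro rfl
        exact h ⟨h2k', hQ2⟩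
  refine isGap_of_residues (hk'.trans hkk) ρ ht (fun p hp => (hmain p hp).1)
    (fun p hp => (hmain p hp).2) ?_ (Or.inl ht2)
  intro i hi hit
  by_cases hiU : i ∈ U
  · have hb := hφ1 i hiU
    have hpN := hb.1
    refine ⟨φ i, (mem_sdiff.mp hpN).1, ?_⟩
    have h : ¬ (φ i ∈ PS k' ∧ φ i ∉ Q) := fun h => (mem_sdiff.mp hpN).2 h.1
    have h' : ∃ j ∈ U, φ j = φ i := ⟨i, hiU, rfl⟩
    have e : ρ (φ i) = (φ i - 1) * h'.choose := by
      simp only [ρ]; rw [if_neg h, dif_pos h']
    have hj : h'.choose = i := hφ2 _ h'.choose_spec.1 _ hiU h'.choose_spec.2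
    rw [e, hj]
    have hpp := hNprime _ hpN
    have : (φ i - 1) * i + i = φ i * i := by
      conv_rhs => rw [show φ i = (φ i - 1) + 1 by have := hpp.two_le; omega]
      ring
    rw [this]
    exact dvd_mul_right _ _
  · rw [hU, mem_filter, mem_Ioo] at hiU
    push Not at hiU
    obtain ⟨p, hp, hpi⟩ := hiU ⟨hi, hit⟩
    obtain ⟨hp1, hp2⟩ := mem_sdiff.mp hp
    refine ⟨p, PS_mono hkk hp1, ?_⟩
    have e : ρ p = a + s := if_pos ⟨hp1, hp2⟩
    rw [e]; exact hpi

end Pool.Agent.helper85.Jac
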